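import Pool.Agent.Helper45.AM.GoalsA
import Pool.Agent.Helper15.RA.GoalsH

/-!
# Project AM, packet AB: the basis `c`, products whose lengths add
-/

set_option autoImplicit false

open LaurentPolynomial Pool.Agent.Helper15.RA Pool.Agent.Helper45.AM

noncomputable section

namespace Pool.Agent.Helper13.AM

variable {W H : Type} [Ring H] [Algebra ℤ[T;T⁻¹] H]

theorem expand (t : Module.Basis W ℤ[T;T⁻¹] H) (A : H) :
    A = ∑ u ∈ (t.repr A).support, t.repr A u • t u := by
  conv_lhs => rw [← t.linearCombination_repr A]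
  rfl

theorem phi_mul (t : Module.Basis W ℤ[T;T⁻¹] H) (φ : H →ₗ[ℤ[T;T⁻¹]] ℤ[T;T⁻¹]) (A B : H)
    (h : ∀ u v, t.repr A u ≠ 0 → t.repr B v ≠ 0 → φ (t u * t v) = 0) : φ (A * B) = 0 := by
  have hA := expand t A
  have hB := expand t B
  generalize t.repr A = a at h hA
  generalize t.repr B = b at h hB
  rw [hA, hB, Finset.sum_mul, map_sum]
  refine Finset.sum_eq_zero fun u hu => ?_
  rw [smul_mul_assoc, map_smul, Finset.mul_sum, map_sum]
  have : ∑ v ∈ b.support, φ (t u * b v • t v) = 0 := by
    refine Finset.sum_eq_zero fun v hv => ?_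
    rw [mul_smul_comm, map_smul, h u v (Finsupp.mem_support_iff.1 hu) (Finsupp.mem_support_iff.1 hv),
      smul_zero]
  rw [this, smul_zero]

theorem deg_change (b₁ b₂ : Module.Basis W ℤ[T;T⁻¹] H)
    (h : ∀ w y, DegLE 0 (b₂.repr (b₁ w) y)) {k : ℤ} {Z : H} (hZ : ∀ w, DegLE k (b₁.repr Z w)) (y : W) :
    DegLE k (b₂.repr Z y) := by
  have e : b₂.repr Z y = ∑ u ∈ (b₁.repr Z).support, b₁.repr Z u * b₂.repr (b₁ u) y := by
    conv_lhs => rw [expand b₁ Z]
    rw [map_sum, Finsupp.finsetSum_apply]
    refine Finset.sum_congr rfl fun u _ => ?_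
    rw [map_smul, Finsupp.smul_apply, smul_eq_mul]
  rw [e]
  refine DegLE.sum fun u _ => ?_
  exact (hZ u).mul_le (h u y) (by omega)

/-- **A_B**. -/
theorem h_a_b (h1 : H_1) (h2 : H_2) (h3 : H_3) : A_B := by
  classical
  intro S W H _ _ _ X
  obtain ⟨⟨b, hb, hb1, hb2⟩, -⟩ := h3 S W H X.M X.cs X.L X.wt X.D
  have hbX : b = X.b := Module.Basis.eq_of_apply_eq fun w => by rw [hb w, X.hb w]
  subst hbX
  obtain ⟨-, -, -, c1, c2, c3, -⟩ := h2 S W H X.M X.cs X.L X.wt X.D
  obtain ⟨-, -, -, -, -, m1, -, -⟩ := h1 S W H X.M X.cs X.L X.D.toHecke0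
  have p1 : ∀ x y, X.b.repr (X.D.c x * X.D.c y) = X.h x y := by
    intro x y
    rw [X.isH x y]
    have : ((X.h x y).sum fun z p => p • X.D.c z) = Finsupp.linearCombination _ X.b (X.h x y) := by
      rw [Finsupp.linearCombination_apply]
      refine Finsupp.sum_congr fun z _ => ?_
      rw [X.hb z]
    rw [this, X.b.repr_linearCombination]
  have p4 : ∀ w y, X.b.repr (X.D.t w) y ≠ 0 → y = w ∨ X.cs.length y < X.cs.length w := by
    intro w y h
    by_cases hy : y = w
    · exact Or.inl hy
    · exact Or.inr ((hb2 w y hy).2 h)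
  refine ⟨p1, hb1, fun w y hy => (hb2 w y hy).1, p4, ?_, ?_⟩
  · intro k Z
    constructor
    · intro hZ
      refine deg_change X.D.t X.b (fun w y => ?_) hZ
      by_cases hy : y = w
      · rw [hy, hb1]
        exact DegLE.one le_rfl
      · exact (hb2 w y hy).1.mono (by omega)
    · intro hZ
      refine deg_change X.b X.D.t (fun w y => ?_) hZ
      rw [X.hb w]
      by_cases hy : y = w
      · rw [hy, c1]
        exact DegLE.one le_rfl
      · exact (c3 w y hy).mono (by omega)
  · intro x y hxy
    rw [← p1]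
    -- the coordinate of a product of short elements
    have key : ∀ u v, X.cs.length u + X.cs.length v < X.cs.length (x * y) →
        X.b.repr (X.D.t u * X.D.t v) (x * y) = 0 := by
      intro u v huv
      rw [expand X.D.t (X.D.t u * X.D.t v), map_sum, Finsupp.finsetSum_apply]
      refine Finset.sum_eq_zero fun z hz => ?_
      have hz' := m1 u v z (Finsupp.mem_support_iff.1 hz)
      rw [map_smul, Finsupp.smul_apply]
      have : X.b.repr (X.D.t z) (x * y) = 0 := by
        by_contra hne
        rcases p4 z (x * y) hne with h | h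
        · rw [h] at huv
          omega
        · omega
      rw [this, smul_zero]
    have short : ∀ w u, X.D.t.repr (X.D.c w - X.D.t w) u ≠ 0 → X.cs.length u < X.cs.length w := by
      intro w u hu
      rw [map_sub, Finsupp.sub_apply, X.D.t.repr_self] at hu
      by_cases huw : u = w
      · subst huw
        rw [c1, Finsupp.single_eq_same, sub_self] at hu
        exact absurd rfl hu
      · rw [Finsupp.single_eq_of_ne huw, sub_zero] at hu
        exact (c2 w u hu).resolve_left huw
    have short' : ∀ w u, X.D.t.repr (X.D.c w) u ≠ 0 → X.cs.length u ≤ X.cs.length w := by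
      intro w u hu
      rcases c2 w u hu with h | h
      · rw [h]
      · exact h.le
    have e : X.D.c x * X.D.c y = X.D.t (x * y) + X.D.t x * (X.D.c y - X.D.t y) +
        (X.D.c x - X.D.t x) * X.D.c y := by
      rw [← X.D.mul x y hxy]
      noncomm_ring
    have z1 : X.b.coord (x * y) (X.D.t x * (X.D.c y - X.D.t y)) = 0 := by
      refine phi_mul X.D.t _ _ _ fun u v hu hv => ?_
      rw [X.D.t.repr_self] at hu
      have hu' : u = x := by
        by_contra hne
        exact hu (Finsupp.single_eq_of_ne hne)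
      rw [Module.Basis.coord_apply, hu']
      exact key x v (by have := short y v hv; omega)
    have z2 : X.b.coord (x * y) ((X.D.c x - X.D.t x) * X.D.c y) = 0 := by
      refine phi_mul X.D.t _ _ _ fun u v hu hv => ?_
      rw [Module.Basis.coord_apply]
      exact key u v (by have := short x u hu; have := short' y v hv; omega)
    rw [Module.Basis.coord_apply] at z1 z2
    rw [e, map_add, map_add, Finsupp.add_apply, Finsupp.add_apply, z1, z2, hb1, add_zero, add_zero]

end Pool.Agent.Helper13.AM
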