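import Pool.Agent.Helper45.AM.GoalsE
import Pool.Agent.Helper13.AM.AB

/-!
# Project AM, packet E1: elements of `I_M` and of `Lam` in the basis `c`
-/

set_option autoImplicit false

open LaurentPolynomial Pool.Agent.Helper15.RA Pool.Agent.Helper45.AM

noncomputable section

namespace Pool.Agent.Helper13.AM

/-- **E_1**. -/
theorem h_e_1 (h2 : H_2) (hab : A_B) (hd3 : D_3) : Pool.Agent.Helper45.AM.E_1 := by
  classical
  intro S W H _ _ _ X hNN hCC M n Z z hz
  obtain ⟨-, -, -, c1, c2, -, -⟩ := h2 S W H X.M X.cs X.L X.wt X.D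
  obtain ⟨-, -, -, -, a5, -⟩ := hab S W H X.toBase
  choose l hl1 hl2 hl3 using fun w => hd3 S W H X M w
  -- the union of the `Idl M n`
  have hdir : Directed (· ≤ ·) (fun n => X.Idl M n) := fun i j =>
    ⟨max i j, AC.Idl_mono (le_max_left i j), AC.Idl_mono (le_max_right i j)⟩
  set I : Submodule ℤ[T;T⁻¹] H := ⨆ n, X.Idl M n with hI
  have memI : ∀ {n : ℕ} {Y : H}, Y ∈ X.Idl M n → Y ∈ I := fun {n} {Y} h =>
    (le_iSup (fun n => X.Idl M n) n) h
  -- the projection
  set R : H →ₗ[ℤ[T;T⁻¹]] H := X.D.t.constr ℤ[T;T⁻¹] l with hR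
  have Rt : ∀ u, R (X.D.t u) = l u := fun u => by rw [hR, Module.Basis.constr_basis]
  have sub_mem : ∀ Y : H, Y - R Y ∈ I := by
    intro Y
    have h : (⊤ : Submodule ℤ[T;T⁻¹] H) ≤ I.comap (LinearMap.id - R) := by
      rw [← X.D.t.span_eq, Submodule.span_le]
      rintro _ ⟨u, rfl⟩
      rw [SetLike.mem_coe, Submodule.mem_comap, LinearMap.sub_apply, LinearMap.id_apply, Rt]
      exact memI (hl1 u)
    exact h (Submodule.mem_top (x := Y))
  have supp : ∀ (Y : H) (w : W), X.D.t.repr (R Y) w ≠ 0 → ¬ X.Ge (M + 1) w := by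
    intro Y w h hw
    apply h
    have e : X.D.t.coord w ∘ₗ R = 0 := X.D.t.ext fun u => by
      rw [LinearMap.comp_apply, Rt, Module.Basis.coord_apply, LinearMap.zero_apply]
      by_contra hne
      exact (hl3 u w hne).1 hw
    have := LinearMap.congr_fun e Y
    rwa [LinearMap.comp_apply, Module.Basis.coord_apply, LinearMap.zero_apply] at this
  have RI : ∀ Y ∈ I, R Y = 0 := by
    intro Y hY
    have h1 : R Y ∈ I := by
      have := I.sub_mem hY (sub_mem Y)
      rwa [sub_sub_cancel] at this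
    obtain ⟨m, hm⟩ := (Submodule.mem_iSup_of_directed _ hdir).1 h1
    exact hNN M m (R Y) hm (supp Y)
  -- the coordinates of `R (c_z)`
  have Rc : ∀ z w, X.cs.length z ≤ X.cs.length w → ¬ X.Ge (M + 1) z →
      X.D.t.repr (R (X.D.c z)) w = if w = z then 1 else 0 := by
    intro z w hzw hz
    rw [expand X.D.t (X.D.c z), map_sum, map_sum, Finsupp.finsetSum_apply, Finset.sum_eq_single z]
    · rw [map_smul, map_smul, Finsupp.smul_apply, c1, one_smul, Rt, hl2 z hz, X.D.t.repr_self,
        Finsupp.single_apply]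
      simp only [eq_comm]
    · intro y hy hyz
      have h1 := (c2 z y (Finsupp.mem_support_iff.1 hy)).resolve_left hyz
      rw [map_smul, map_smul, Finsupp.smul_apply, Rt]
      have : X.D.t.repr (l y) w = 0 := by
        by_contra hne
        have := (hl3 y w hne).2.2.1
        omega
      rw [this, smul_zero]
    · intro h
      exfalso
      apply h
      rw [Finsupp.mem_support_iff, c1]
      exact one_ne_zero
  have key : ∀ Y ∈ I, ∀ z, ¬ X.Ge (M + 1) z → X.b.repr Y z = 0 := by
    intro Y hY z₀ hz₀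
    by_contra hne
    obtain ⟨w, hw, hmax⟩ := Finset.exists_max_image
      ((X.b.repr Y).support.filter fun z => ¬ X.Ge (M + 1) z) X.cs.length
      ⟨z₀, Finset.mem_filter.2 ⟨Finsupp.mem_support_iff.2 hne, hz₀⟩⟩
    obtain ⟨hw1, hw2⟩ := Finset.mem_filter.1 hw
    have h0 : X.D.t.repr (R Y) w = 0 := by rw [RI Y hY, map_zero, Finsupp.zero_apply]
    rw [expand X.b Y, map_sum, map_sum, Finsupp.finsetSum_apply, Finset.sum_eq_single w] at h0
    · rw [map_smul, map_smul, Finsupp.smul_apply, X.hb, Rc w w le_rfl hw2, if_pos rfl, smul_eq_mul,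
        mul_one] at h0
      exact Finsupp.mem_support_iff.1 hw1 h0
    · intro y hy hyw
      rw [map_smul, map_smul, Finsupp.smul_apply, X.hb]
      by_cases hgy : X.Ge (M + 1) y
      · rw [RI _ (memI (hCC M (X.sl y + 1) y (Nat.lt_succ_self _) hgy)), map_zero,
          Finsupp.zero_apply, smul_zero]
      · rw [Rc y w (hmax y (Finset.mem_filter.2 ⟨hy, hgy⟩)) hgy, if_neg (Ne.symm hyw), smul_zero]
    · intro h
      exact absurd hw1 h
  refine ⟨fun hZ => key Z (memI hZ) z hz, fun k hk => ?_⟩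
  obtain ⟨l', hl', hι⟩ := hk
  have e : X.b.repr Z z = X.b.repr l' z := by
    have := key _ (memI hι) z hz
    rw [map_sub, Finsupp.sub_apply] at this
    exact sub_eq_zero.1 this
  rw [e]
  exact (a5 k l').1 (fun w => (hl' w).1) z

end Pool.Agent.Helper13.AM
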